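import Pool.Agent.Helper93.GS.Stmts

set_option autoImplicit false

namespace Pool.Agent.Helper93.GS

section cen

variable {W : Type} [Group W] {P : Submonoid W} {N : Subgroup W}

def cenC (P : Submonoid W) (N : Subgroup W) : Set W := {z | z ∈ N ∧ ∃ k : ℕ, 0 < k ∧ z ^ k ∈ P}

theorem cenC_one : (1 : W) ∈ cenC P N := ⟨N.one_mem, 1, one_pos, by simp⟩

theorem cenC_mul (hN : ∀ z ∈ N, ∀ w : W, z * w = w * z) {x y : W} (hx : x ∈ cenC P N)
    (hy : y ∈ cenC P N) : x * y ∈ cenC P N := by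
  obtain ⟨hx, k, hk, hxk⟩ := hx
  obtain ⟨hy, l, hl, hyl⟩ := hy
  refine ⟨N.mul_mem hx hy, k * l, Nat.mul_pos hk hl, ?_⟩
  have : (x * y) ^ (k * l) = (x ^ k) ^ l * (y ^ l) ^ k := by
    rw [(show Commute x y from hN x hx y).mul_pow, pow_mul, mul_comm k l, pow_mul]
  rw [this]
  exact P.mul_mem (P.pow_mem hxk l) (P.pow_mem hyl k)

theorem cenC_pow (hN : ∀ z ∈ N, ∀ w : W, z * w = w * z) {x : W} (hx : x ∈ cenC P N) (n : ℕ) :
    x ^ n ∈ cenC P N := by
  induction n with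
  | zero => rw [pow_zero]; exact cenC_one
  | succ n ih => rw [pow_succ]; exact cenC_mul hN ih hx

theorem cenC_root {x : W} (hx : x ∈ N) {k : ℕ} (hk : 0 < k) (h : x ^ k ∈ cenC P N) :
    x ∈ cenC P N := by
  obtain ⟨-, l, hl, hxl⟩ := h
  exact ⟨hx, k * l, Nat.mul_pos hk hl, by rwa [pow_mul]⟩

/-- commutators of powers -/
theorem cen_pow {z u h : W} (hz : ∀ w : W, z * w = w * z) (e : u * h = z * h * u) (i j : ℕ) :
    u ^ i * h ^ j = z ^ (i * j) * h ^ j * u ^ i := by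
  have h1 : ∀ j : ℕ, u * h ^ j = z ^ j * h ^ j * u := by
    intro j
    induction j with
    | zero => simp
    | succ j ih =>
      have c : z * h ^ j = h ^ j * z := hz _
      calc u * h ^ (j + 1) = (u * h ^ j) * h := by rw [pow_succ]; simp only [mul_assoc]
        _ = z ^ j * h ^ j * (u * h) := by rw [ih]; simp only [mul_assoc]
        _ = z ^ j * (h ^ j * z) * h * u := by rw [e]; simp only [mul_assoc]
        _ = z ^ (j + 1) * h ^ (j + 1) * u := by
          rw [← c, pow_succ z, pow_succ h]; simp only [mul_assoc]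
  induction i with
  | zero => simp
  | succ i ih =>
    have c : ∀ n : ℕ, ∀ w : W, z ^ n * w = w * z ^ n := by
      intro n w
      exact (show Commute z w from hz w).pow_left n
    calc u ^ (i + 1) * h ^ j = u ^ i * (u * h ^ j) := by rw [pow_succ]; simp only [mul_assoc]
      _ = (u ^ i * z ^ j) * h ^ j * u := by rw [h1]; simp only [mul_assoc]
      _ = z ^ j * (u ^ i * h ^ j) * u := by rw [← c]; simp only [mul_assoc]
      _ = z ^ j * z ^ (i * j) * h ^ j * (u ^ i * u) := by rw [ih]; simp only [mul_assoc]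
      _ = z ^ ((i + 1) * j) * h ^ j * u ^ (i + 1) := by
        rw [← pow_add, ← pow_succ, show j + i * j = (i + 1) * j by ring]

theorem cen_four (a b c d s₁ s₂ s₃ s₄ : W) (h₁ : ∀ w : W, s₁ * w = w * s₁)
    (h₂ : ∀ w : W, s₂ * w = w * s₂) (h₃ : ∀ w : W, s₃ * w = w * s₃) :
    (a * s₁) * (b * s₂) * (c * s₃) * (d * s₄) = a * b * c * d * (s₁ * s₂ * s₃ * s₄) := by
  calc (a * s₁) * (b * s₂) * (c * s₃) * (d * s₄)
      = a * (s₁ * (b * (s₂ * (c * (s₃ * d))))) * s₄ := by simp only [mul_assoc]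
    _ = a * ((b * ((c * (d * s₃)) * s₂)) * s₁) * s₄ := by
        rw [h₃ d, h₂ (c * (d * s₃)), h₁ (b * (c * (d * s₃) * s₂))]
    _ = a * (b * (c * (d * (s₃ * s₂ * s₁ * s₄)))) := by simp only [mul_assoc]
    _ = a * (b * (c * (d * (s₁ * s₂ * s₃ * s₄)))) := by
        rw [show s₃ * s₂ * s₁ = s₁ * s₂ * s₃ by
          rw [← h₁ (s₃ * s₂), h₃ s₂, mul_assoc]]
    _ = a * b * c * d * (s₁ * s₂ * s₃ * s₄) := by simp only [mul_assoc]

/-- for a commutator `z`, all `z ^ m * t` are in `C` -/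
theorem cen_claim (hN : ∀ z ∈ N, ∀ w : W, z * w = w * z)
    (hw : ∀ w : W, ∃ k : ℕ, 0 < k ∧ ∃ z ∈ N, w ^ k * z ∈ P) {z u h : W} (hz : z ∈ N)
    (e : z = u * h * u⁻¹ * h⁻¹) : ∃ t ∈ cenC P N, ∀ m : ℤ, z ^ m * t ∈ cenC P N := by
  have hpair : ∀ w : W, ∃ K : ℕ, 0 < K ∧ ∃ t ∈ N, ∃ t' ∈ N, w ^ K * t ∈ P ∧
      (w⁻¹) ^ K * t' ∈ P := by
    intro w
    obtain ⟨k, hk, s, hs, h1⟩ := hw w
    obtain ⟨k', hk', s', hs', h2⟩ := hw w⁻¹
    refine ⟨k * k', Nat.mul_pos hk hk', s ^ k', N.pow_mem hs _, s' ^ k, N.pow_mem hs' _, ?_, ?_⟩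
    · have h3 := P.pow_mem h1 k'
      rwa [(show Commute (w ^ k) s from (hN s hs _).symm).mul_pow, ← pow_mul] at h3
    · have h3 := P.pow_mem h2 k
      rwa [(show Commute (w⁻¹ ^ k') s' from (hN s' hs' _).symm).mul_pow, ← pow_mul,
        mul_comm k' k] at h3
  obtain ⟨K, hK, t₁, ht₁, t₃, ht₃, hP1, hP3⟩ := hpair u
  obtain ⟨L, hL, t₂, ht₂, t₄, ht₄, hP2, hP4⟩ := hpair h
  have euh : u * h = z * h * u := by rw [e]; group
  have hzc := hN z hz
  set t := t₁ * t₂ * t₃ * t₄ with ht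
  have htN : t ∈ N := N.mul_mem (N.mul_mem (N.mul_mem ht₁ ht₂) ht₃) ht₄
  have htn : ∀ n : ℕ, t ^ n = t₁ ^ n * t₂ ^ n * t₃ ^ n * t₄ ^ n := by
    intro n
    rw [ht, (show Commute (t₁ * t₂ * t₃) t₄ from (hN _ ht₄ _).symm).mul_pow,
      (show Commute (t₁ * t₂) t₃ from (hN _ ht₃ _).symm).mul_pow,
      (show Commute t₁ t₂ from (hN _ ht₂ _).symm).mul_pow]
  have htn' : ∀ n : ℕ, t ^ n = t₂ ^ n * t₁ ^ n * t₄ ^ n * t₃ ^ n := by
    intro n
    rw [htn, hN _ (N.pow_mem ht₁ n) (t₂ ^ n), mul_assoc, mul_assoc (t₂ ^ n * t₁ ^ n),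
      hN _ (N.pow_mem ht₃ n) (t₄ ^ n)]
  have hcomm : ∀ n : ℕ, (u ^ K) ^ n * (h ^ L) ^ n * ((u⁻¹) ^ K) ^ n * ((h⁻¹) ^ L) ^ n
      = z ^ ((K * L) * n * n) := by
    intro n
    rw [← pow_mul, ← pow_mul, ← pow_mul, ← pow_mul, inv_pow, inv_pow, cen_pow hzc euh]
    rw [mul_inv_cancel_right, mul_inv_cancel_right]
    congr 1; ring
  have hcomm' : ∀ n : ℕ, (h ^ L) ^ n * (u ^ K) ^ n * ((h⁻¹) ^ L) ^ n * ((u⁻¹) ^ K) ^ n
      = (z ^ ((K * L) * n * n))⁻¹ := by
    intro n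
    rw [← hcomm]
    rw [← pow_mul, ← pow_mul, ← pow_mul, ← pow_mul, inv_pow, inv_pow]
    group
  have hA : ∀ n : ℕ, z ^ ((K * L) * n * n) * t ^ n ∈ P := by
    intro n
    have h1 := P.mul_mem (P.mul_mem (P.mul_mem (P.pow_mem hP1 n) (P.pow_mem hP2 n))
      (P.pow_mem hP3 n)) (P.pow_mem hP4 n)
    rw [(show Commute (u ^ K) t₁ from (hN _ ht₁ _).symm).mul_pow,
      (show Commute (h ^ L) t₂ from (hN _ ht₂ _).symm).mul_pow,
      (show Commute (u⁻¹ ^ K) t₃ from (hN _ ht₃ _).symm).mul_pow,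
      (show Commute (h⁻¹ ^ L) t₄ from (hN _ ht₄ _).symm).mul_pow,
      cen_four _ _ _ _ _ _ _ _ (hN _ (N.pow_mem ht₁ n)) (hN _ (N.pow_mem ht₂ n))
        (hN _ (N.pow_mem ht₃ n)), hcomm, ← htn] at h1
    exact h1
  have hB : ∀ n : ℕ, (z ^ ((K * L) * n * n))⁻¹ * t ^ n ∈ P := by
    intro n
    have h1 := P.mul_mem (P.mul_mem (P.mul_mem (P.pow_mem hP2 n) (P.pow_mem hP1 n))
      (P.pow_mem hP4 n)) (P.pow_mem hP3 n)
    rw [(show Commute (u ^ K) t₁ from (hN _ ht₁ _).symm).mul_pow,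
      (show Commute (h ^ L) t₂ from (hN _ ht₂ _).symm).mul_pow,
      (show Commute (u⁻¹ ^ K) t₃ from (hN _ ht₃ _).symm).mul_pow,
      (show Commute (h⁻¹ ^ L) t₄ from (hN _ ht₄ _).symm).mul_pow,
      cen_four _ _ _ _ _ _ _ _ (hN _ (N.pow_mem ht₂ n)) (hN _ (N.pow_mem ht₁ n))
        (hN _ (N.pow_mem ht₄ n)), hcomm', ← htn'] at h1
    exact h1
  have htC : t ∈ cenC P N := by
    refine ⟨htN, 2, two_pos, ?_⟩
    have h1 := P.mul_mem (hA 1) (hB 1)
    have c : z ^ (K * L * 1 * 1) * t ^ 1 = t ^ 1 * z ^ (K * L * 1 * 1) :=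
      (hN _ (N.pow_mem htN 1) _).symm
    rw [c, mul_assoc, mul_inv_cancel_left, ← pow_add] at h1
    exact h1
  -- all multiples of `e`
  have hzm : ∀ m : ℤ, z ^ ((K * L : ℕ) * m : ℤ) * t ∈ cenC P N := by
    intro m
    obtain ⟨n, rfl | rfl⟩ := m.eq_nat_or_neg
    · rcases Nat.eq_zero_or_pos n with rfl | hn
      · simpa using htC
      · refine ⟨N.mul_mem (N.zpow_mem hz _) htN, n, hn, ?_⟩
        rw [(show Commute (z ^ ((K * L : ℕ) * (n : ℤ) : ℤ)) t from
          (hN _ htN _).symm).mul_pow]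
        have := hA n
        rw [← zpow_natCast, ← zpow_mul]
        rw [← zpow_natCast z] at this
        convert this using 3
        push_cast; ring
    · rcases Nat.eq_zero_or_pos n with rfl | hn
      · simpa using htC
      · refine ⟨N.mul_mem (N.zpow_mem hz _) htN, n, hn, ?_⟩
        rw [(show Commute (z ^ ((K * L : ℕ) * (-(n : ℤ)) : ℤ)) t from
          (hN _ htN _).symm).mul_pow]
        have := hB n
        rw [← zpow_natCast, ← zpow_mul]
        rw [← zpow_natCast z, ← zpow_neg] at this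
        convert this using 3
        push_cast; ring
  refine ⟨t, htC, fun m => ?_⟩
  have he : 0 < K * L := Nat.mul_pos hK hL
  refine cenC_root (N.mul_mem (N.zpow_mem hz _) htN) he ?_
  have h1 := cenC_mul hN (hzm m) (cenC_pow hN htC (K * L - 1))
  rw [mul_assoc, ← pow_succ', Nat.sub_add_cancel he] at h1
  rw [(show Commute (z ^ m) t from (hN _ htN _).symm).mul_pow, ← zpow_natCast (z ^ m),
    ← zpow_mul, mul_comm m]
  exact h1

end cen

theorem st_CEN : ST_CEN := by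
  intro W _ P N Z hZ hN hNZ hw hgen
  -- every element of `N` is in `L`
  have hL : ∀ x ∈ N, ∃ s ∈ cenC P N, ∀ m : ℤ, x ^ m * s ∈ cenC P N := by
    have key : ∀ x ∈ Subgroup.closure {x : W | x ∈ N ∧ ∃ u h : W, x = u * h * u⁻¹ * h⁻¹},
        x ∈ N ∧ ∃ s ∈ cenC P N, ∀ m : ℤ, x ^ m * s ∈ cenC P N := by
      intro x hx
      induction hx using Subgroup.closure_induction with
      | mem x hx =>
        obtain ⟨hx, u, h, e⟩ := hx
        exact ⟨hx, cen_claim hN hw hx e⟩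
      | one => exact ⟨N.one_mem, 1, cenC_one, fun m => by simpa using cenC_one⟩
      | mul x y _ _ ihx ihy =>
        obtain ⟨hx, s, hs, h1⟩ := ihx
        obtain ⟨hy, s', hs', h2⟩ := ihy
        refine ⟨N.mul_mem hx hy, s * s', cenC_mul hN hs hs', fun m => ?_⟩
        have h3 := cenC_mul hN (h1 m) (h2 m)
        have e : x ^ m * s * (y ^ m * s') = (x * y) ^ m * (s * s') := by
          rw [(show Commute x y from hN _ hx _).mul_zpow, mul_assoc, ← mul_assoc s,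
            hN s hs.1 (y ^ m)]
          simp only [mul_assoc]
        rwa [e] at h3
      | inv x _ ihx =>
        obtain ⟨hx, s, hs, h1⟩ := ihx
        refine ⟨N.inv_mem hx, s, hs, fun m => ?_⟩
        have := h1 (-m)
        rwa [inv_zpow']
    intro x hx
    exact (key x (hgen x hx)).2
  -- finite sets
  have hfin : ∀ Z₀ : Set W, Z₀.Finite → Z₀ ⊆ N → ∃ s ∈ cenC P N,
      ∀ x ∈ Subgroup.closure Z₀, x * s ∈ cenC P N := by
    intro Z₀ hZ₀
    induction Z₀, hZ₀ using Set.Finite.induction_on with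
    | empty =>
      intro _
      refine ⟨1, cenC_one, fun x hx => ?_⟩
      rw [Subgroup.closure_empty, Subgroup.mem_bot] at hx
      rw [hx, mul_one]; exact cenC_one
    | @insert z Z₀ _ _ ih =>
      intro hsub
      obtain ⟨s, hs, h1⟩ := ih fun x hx => hsub (Set.mem_insert_of_mem _ hx)
      have hz : z ∈ N := hsub (Set.mem_insert _ _)
      obtain ⟨s', hs', h2⟩ := hL z hz
      refine ⟨s' * s, cenC_mul hN hs' hs, fun x hx => ?_⟩
      have hdec : ∃ m : ℤ, ∃ y ∈ Subgroup.closure Z₀, x = z ^ m * y := by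
        induction hx using Subgroup.closure_induction with
        | mem x hx =>
          rcases hx with rfl | hx
          · exact ⟨1, 1, Subgroup.one_mem _, by simp⟩
          · exact ⟨0, x, Subgroup.subset_closure hx, by simp⟩
        | one => exact ⟨0, 1, Subgroup.one_mem _, by simp⟩
        | mul x y _ _ ihx ihy =>
          obtain ⟨m, a, ha, rfl⟩ := ihx
          obtain ⟨n, b, hb, rfl⟩ := ihy
          refine ⟨m + n, a * b, Subgroup.mul_mem _ ha hb, ?_⟩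
          rw [zpow_add, mul_assoc, ← mul_assoc a, ← hN _ (N.zpow_mem hz n) a]
          simp only [mul_assoc]
        | inv x _ ihx =>
          obtain ⟨m, a, ha, rfl⟩ := ihx
          refine ⟨-m, a⁻¹, Subgroup.inv_mem _ ha, ?_⟩
          rw [mul_inv_rev, zpow_neg, hN _ (N.inv_mem (N.zpow_mem hz m)) a⁻¹]
      obtain ⟨m, y, hy, rfl⟩ := hdec
      have h3 := cenC_mul hN (h2 m) (h1 y hy)
      have e : z ^ m * s' * (y * s) = z ^ m * y * (s' * s) := by
        rw [mul_assoc, ← mul_assoc s', hN s' hs'.1 y]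
        simp only [mul_assoc]
      rwa [e] at h3
  obtain ⟨s, hs, h1⟩ := hfin Z hZ (by rw [hNZ]; exact Subgroup.subset_closure)
  rw [← hNZ] at h1
  have hsinv : s⁻¹ ∈ cenC P N := by
    have := h1 (s⁻¹ * s⁻¹) (N.mul_mem (N.inv_mem hs.1) (N.inv_mem hs.1))
    rwa [inv_mul_cancel_right] at this
  intro z hz
  have h2 := cenC_mul hN (h1 z hz) hsinv
  rw [mul_inv_cancel_right] at h2
  exact h2.2

end Pool.Agent.Helper93.GS
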