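import Pool.Agent.Helper93.GS.Stmts

set_option autoImplicit false

namespace Pool.Agent.Helper93.GS

theorem com_mul {A : Type} [Ring A] {a b : ℕ} {p q : PowerSeries A}
    (hp : ∀ n < a, PowerSeries.coeff n p = 0) (hq : ∀ n < b, PowerSeries.coeff n q = 0) :
    ∀ n < a + b, PowerSeries.coeff n (p * q) = 0 := by
  intro n hn
  rw [PowerSeries.coeff_mul]
  refine Finset.sum_eq_zero ?_
  rintro ⟨i, j⟩ hij
  have hij := Finset.HasAntidiagonal.mem_antidiagonal.1 hij
  simp only at hij
  rcases lt_or_ge i a with h | h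
  · rw [hp i h, zero_mul]
  · rw [hq j (by omega), mul_zero]

theorem st_COM : ST_COM := by
  intro A _ a b u v hu hv
  rw [mem_Dep] at hu hv ⊢
  have e : ((u * v * u⁻¹ * v⁻¹ : (PowerSeries A)ˣ) : PowerSeries A) - 1 =
      (((u : PowerSeries A) - 1) * ((v : PowerSeries A) - 1)
        - ((v : PowerSeries A) - 1) * ((u : PowerSeries A) - 1)) *
        ((u⁻¹ * v⁻¹ : (PowerSeries A)ˣ) : PowerSeries A) := by
    have e1 : (((u : PowerSeries A) - 1) * ((v : PowerSeries A) - 1)
        - ((v : PowerSeries A) - 1) * ((u : PowerSeries A) - 1)) =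
        (u : PowerSeries A) * v - v * u := by
      noncomm_ring
    rw [e1, sub_mul]
    congr 1
    · push_cast
      simp only [mul_assoc]
    · rw [← Units.val_mul, ← Units.val_mul]
      simp
  intro n hn
  rw [e]
  have h3 : ∀ n < a + b, PowerSeries.coeff n
      (((u : PowerSeries A) - 1) * ((v : PowerSeries A) - 1)
        - ((v : PowerSeries A) - 1) * ((u : PowerSeries A) - 1)) = 0 := by
    intro n hn
    rw [map_sub, com_mul hu hv n hn, com_mul hv hu n (by omega), sub_zero]
  exact com_mul (b := 0) h3 (fun n hn => absurd hn (Nat.not_lt_zero n)) n (by omega)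

end Pool.Agent.Helper93.GS
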