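import Pool.Agent.Helper93.GS.Stmts

set_option autoImplicit false

namespace Pool.Agent.Helper93.GS

open scoped commutatorElement

theorem ln2_step (hFGL : ST_FGL) (hCEN : ST_CEN) : ∀ c : ℕ, ∀ (W : Type) [Group W], Group.FG W →
    Subgroup.lowerCentralSeries (⊤ : Subgroup W) (c + 1) = ⊥ → ∀ P : Submonoid W,
    (∀ w : W, ∃ k : ℕ, 0 < k ∧ ∃ d ∈ commutator W, w ^ k * d ∈ P) →
    ∀ w : W, ∃ k : ℕ, 0 < k ∧ w ^ k ∈ P := by
  intro c
  induction c with
  | zero =>
    intro W _ _ h0 P hP w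
    obtain ⟨k, hk, d, hd, h1⟩ := hP w
    rw [zero_add, Subgroup.top_lowerCentralSeries_one] at h0
    rw [h0, Subgroup.mem_bot] at hd
    rw [hd, mul_one] at h1
    exact ⟨k, hk, h1⟩
  | succ c ih =>
    intro W _ hfg h0 P hP
    set N := Subgroup.lowerCentralSeries (⊤ : Subgroup W) (c + 1) with hN
    have hNn : N.Normal := by rw [hN]; infer_instance
    have hcen : ∀ z ∈ N, ∀ w : W, z * w = w * z := by
      intro z hz w
      have h1 : ⁅z, w⁆ ∈ Subgroup.lowerCentralSeries (⊤ : Subgroup W) (c + 1 + 1) :=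
        Subgroup.commutator_mem_commutator hz (Subgroup.mem_top w)
      rw [h0, Subgroup.mem_bot, commutatorElement_eq_one_iff_mul_comm] at h1
      exact h1
    obtain ⟨Z, hZ, hNZ⟩ := hFGL W hfg (c + 1)
    rw [h0, sup_bot_eq, ← hN] at hNZ
    have hfgQ : Group.FG (W ⧸ N) := inferInstance
    have hQ0 : Subgroup.lowerCentralSeries (⊤ : Subgroup (W ⧸ N)) (c + 1) = ⊥ := by
      have h1 := Subgroup.map_lowerCentralSeries (⊤ : Subgroup W) (QuotientGroup.mk' N) (c + 1)
      rw [Subgroup.map_top_of_surjective _ (QuotientGroup.mk'_surjective N)] at h1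
      rw [← h1, Subgroup.map_eq_bot_iff, QuotientGroup.ker_mk']
    have hQP : ∀ w : W ⧸ N, ∃ k : ℕ, 0 < k ∧ w ^ k ∈ P.map (QuotientGroup.mk' N) := by
      refine ih (W ⧸ N) hfgQ hQ0 _ ?_
      intro w'
      obtain ⟨w, rfl⟩ := QuotientGroup.mk'_surjective _ w'
      obtain ⟨k, hk, d, hd, h1⟩ := hP w
      refine ⟨k, hk, QuotientGroup.mk' N d, ?_, ?_⟩
      · have h2 : (commutator W).map (QuotientGroup.mk' N) ≤ commutator (W ⧸ N) := by
          rw [commutator_def, Subgroup.map_commutator, commutator_def]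
          exact Subgroup.commutator_mono le_top le_top
        exact h2 (Subgroup.mem_map_of_mem _ hd)
      · rw [← map_pow, ← map_mul]
        exact Submonoid.mem_map_of_mem _ h1
    have hQP' : ∀ w : W, ∃ k : ℕ, 0 < k ∧ ∃ z ∈ N, w ^ k * z ∈ P := by
      intro w
      obtain ⟨k, hk, h1⟩ := hQP (QuotientGroup.mk' N w)
      obtain ⟨p, hp, h2⟩ := Submonoid.mem_map.1 h1
      refine ⟨k, hk, (w ^ k)⁻¹ * p, ?_, by rw [mul_inv_cancel_left]; exact hp⟩
      rw [← QuotientGroup.eq_one_iff]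
      change QuotientGroup.mk' N _ = 1
      rw [map_mul, h2, map_inv, map_pow, inv_mul_cancel]
    have hgen : ∀ z ∈ N, z ∈ Subgroup.closure {x : W | x ∈ N ∧ ∃ u h : W,
        x = u * h * u⁻¹ * h⁻¹} := by
      intro z hz
      have h1 := (Subgroup.mem_lowerCentralSeries_succ_iff (S := (⊤ : Subgroup W)) c z).1 hz
      refine Subgroup.closure_mono ?_ h1
      rintro x ⟨p, hp, q, hq, rfl⟩
      exact ⟨Subgroup.commutator_mem_commutator hp hq, p, q, rfl⟩
    have hfin := hCEN W P N Z hZ hcen hNZ hQP' hgen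
    intro w
    obtain ⟨k, hk, z, hz, h1⟩ := hQP' w
    obtain ⟨l, hl, h2⟩ := hfin z⁻¹ (N.inv_mem hz)
    refine ⟨k * l, Nat.mul_pos hk hl, ?_⟩
    have h3 := P.mul_mem (P.pow_mem h1 l) h2
    rwa [(show Commute (w ^ k) z from (hcen z hz _).symm).mul_pow, inv_pow,
      mul_inv_cancel_right, ← pow_mul] at h3

theorem st_LN2 (hFGL : ST_FGL) (hCEN : ST_CEN) : ST_LN2 := by
  intro W _ hfg hnil P hP w
  obtain ⟨n, hn⟩ := Subgroup.nilpotent_iff_lowerCentralSeries.1 hnil
  rcases Nat.eq_zero_or_pos n with rfl | hn0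
  · refine ⟨1, one_pos, ?_⟩
    rw [Subgroup.lowerCentralSeries_zero] at hn
    have : w ∈ (⊤ : Subgroup W) := Subgroup.mem_top w
    rw [hn, Subgroup.mem_bot] at this
    rw [this, one_pow]; exact P.one_mem
  · obtain ⟨c, rfl⟩ : ∃ c, n = c + 1 := ⟨n - 1, by omega⟩
    exact ln2_step hFGL hCEN c W hfg hn P hP w

end Pool.Agent.Helper93.GS
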