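import Pool.Agent.Helper93.GS.Stmts

set_option autoImplicit false

namespace Pool.Agent.Helper93.GS

theorem st_MUD : ST_MUD := by
  intro A _ x w
  have h1 : ∀ i, un (x i) ∈ Dep A 1 := by
    intro i n hn
    obtain rfl : n = 0 := by omega
    simp [un, PowerSeries.coeff_monomial]
  have h2 : (mu x).range ≤ Dep A 1 := by
    rw [mu, FreeGroup.range_lift_eq_closure, Subgroup.closure_le]
    rintro _ ⟨i, rfl⟩
    exact h1 i
  exact h2 ⟨w, rfl⟩

end Pool.Agent.Helper93.GS
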