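import Pool.Agent.Helper93.GS.Stmts

set_option autoImplicit false

namespace Pool.Agent.Helper93.GS

theorem nil_Dep_mono {A : Type} [Ring A] {m n : ℕ} (h : m ≤ n) : Dep A n ≤ Dep A m := by
  intro u hu k hk
  exact hu k (by omega)

theorem st_NIL (hCOM : ST_COM) : ST_NIL := by
  intro A _ G hG N
  rw [Subgroup.nilpotent_iff_finite_descending_central_series]
  refine ⟨N, fun i => ((Dep A (i + 1)).subgroupOf G).map
    (QuotientGroup.mk' ((Dep A N).subgroupOf G)), ⟨?_, ?_⟩, ?_⟩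
  · rw [eq_top_iff]
    intro x _
    obtain ⟨g, rfl⟩ := QuotientGroup.mk'_surjective _ x
    exact Subgroup.mem_map_of_mem _ (Subgroup.mem_subgroupOf.2 (hG g.2))
  · rintro x n hx g
    obtain ⟨y, hy, rfl⟩ := Subgroup.mem_map.1 hx
    obtain ⟨h, rfl⟩ := QuotientGroup.mk'_surjective _ g
    rw [← map_commutatorElement]
    refine Subgroup.mem_map_of_mem _ (Subgroup.mem_subgroupOf.2 ?_)
    have h1 := hCOM A (n + 1) 1 (y : (PowerSeries A)ˣ) (h : (PowerSeries A)ˣ)
      (Subgroup.mem_subgroupOf.1 hy) (hG h.2)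
    rw [commutatorElement_def]
    push_cast
    exact h1
  · rw [Subgroup.map_eq_bot_iff, QuotientGroup.ker_mk']
    intro x hx
    exact Subgroup.mem_subgroupOf.2 (nil_Dep_mono (Nat.le_succ N) (Subgroup.mem_subgroupOf.1 hx))

end Pool.Agent.Helper93.GS
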