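import Pool.Agent.Helper93.GS.Stmts

set_option autoImplicit false

namespace Pool.Agent.Helper93.GS

open Pool.Agent.Helper64.ORStar

theorem st_OR (hSIGN : ST_SIGN) (hCPT : ST_CPT) (hCORD : ST_CORD) : ST_OR := by
  classical
  intro G _ L _ hanti hnil htf hsep hS
  refine hCORD G fun P => hCPT G P.P ?_
  intro S A hSP h1A
  -- the closure of `S`
  have hclP : ∀ p ∈ Subsemigroup.closure (S : Set G), p ∈ P.P := by
    intro p hp
    induction hp using Subsemigroup.closure_induction with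
    | mem x hx => exact hSP hx
    | mul x y _ _ hx hy => exact P.mul x hx y hy
  obtain ⟨n₀, hn₀⟩ := hS S fun h => P.one (hclP 1 h)
  -- the elements of `A`
  have hA : ∃ n₁, ∀ a ∈ A, a ∉ L n₁ := by
    have : ∀ a : G, ∃ n, a ∈ A → a ∉ L n := by
      intro a
      by_cases ha : a ∈ A
      · obtain ⟨n, hn⟩ := hsep a (fun h => h1A (h ▸ ha))
        exact ⟨n, fun _ => hn⟩
      · exact ⟨0, fun h => absurd h ha⟩
    choose f hf using this
    refine ⟨A.sup f, fun a ha h => hf a ha (hanti (Finset.le_sup ha) h)⟩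
  obtain ⟨n₁, hn₁⟩ := hA
  set n := max n₀ n₁ with hn
  have h0 : L n ≤ L n₀ := hanti (le_max_left _ _)
  have h1 : L n ≤ L n₁ := hanti (le_max_right _ _)
  let π : G →* G ⧸ L n := QuotientGroup.mk' (L n)
  have hπ : ∀ g, π g = 1 ↔ g ∈ L n := fun g => QuotientGroup.eq_one_iff g
  obtain ⟨Q', hQ1, hQ2⟩ := hSIGN (G ⧸ L n) (hnil n) (by
    intro g k hk hgk
    obtain ⟨x, rfl⟩ := QuotientGroup.mk'_surjective _ g
    rw [← map_pow] at hgk
    exact (hπ x).2 (htf n x k hk ((hπ _).1 hgk))) (S.image π) (A.image π) (by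
    intro h
    have h2 : ∀ q ∈ Subsemigroup.closure ((S.image π : Finset (G ⧸ L n)) : Set (G ⧸ L n)),
        ∃ p ∈ Subsemigroup.closure (S : Set G), π p = q := by
      intro q hq
      induction hq using Subsemigroup.closure_induction with
      | mem x hx =>
        obtain ⟨s, hs, rfl⟩ := Finset.mem_image.1 hx
        exact ⟨s, Subsemigroup.subset_closure hs, rfl⟩
      | mul x y _ _ hx hy =>
        obtain ⟨p, hp, rfl⟩ := hx
        obtain ⟨p', hp', rfl⟩ := hy
        exact ⟨p * p', Subsemigroup.mul_mem _ hp hp', map_mul _ _ _⟩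
    obtain ⟨p, hp, hp1⟩ := h2 1 h
    exact hn₀ p hp (h0 ((hπ p).1 hp1))) (by
    intro h
    obtain ⟨a, ha, ha1⟩ := Finset.mem_image.1 h
    exact hn₁ a ha (h1 ((hπ a).1 ha1)))
  refine ⟨⟨{g | π g ∈ Q'.P}, ?_, ?_⟩, ?_, ?_⟩
  · intro a ha b hb
    change π (a * b) ∈ Q'.P
    rw [map_mul]
    exact Q'.mul _ ha _ hb
  · intro h
    have h' : π 1 ∈ Q'.P := h
    rw [map_one] at h'
    exact Q'.one h'
  · intro s hs
    exact hQ1 (Finset.mem_coe.2 (Finset.mem_image_of_mem π hs))
  · intro a ha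
    rcases hQ2 (π a) (Finset.mem_image_of_mem π ha) with h | h
    · exact Or.inl h
    · right
      change π a⁻¹ ∈ Q'.P
      rwa [map_inv]

end Pool.Agent.Helper93.GS
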