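import Pool.Agent.Helper93.GS.Stmts

set_option autoImplicit false

namespace Pool.Agent.Helper93.GS

theorem pc_eng_coe {G : Type} [Group G] {H : Subgroup G} (x g : H) (k : ℕ) :
    ((eng x g k : H) : G) = eng (x : G) (g : G) k := by
  induction k with
  | zero => rfl
  | succ k ih =>
    simp only [eng, Subgroup.coe_mul, Subgroup.coe_inv, ih]

theorem pc_engel {G : Type} [Group G] (hG : Engel G) (H : Subgroup G) : Engel H := by
  intro x g
  obtain ⟨k, hk⟩ := hG x g
  exact ⟨k, Subtype.ext (by rw [pc_eng_coe, hk]; rfl)⟩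

theorem pc_append {G : Type} [Group G] : ∀ (l l' : List G) (a b : G), Pcp l a → Pcp l' b →
    Pcp (l ++ l') (a * b)
  | [], l', a, b, ha, hb => by
    have : a = 1 := ha
    rw [this, one_mul]; exact hb
  | x :: l, l', a, b, ha, hb => by
    obtain ⟨n, y, hy, rfl⟩ := ha
    exact ⟨n, y * b, pc_append l l' y b hy hb, by rw [mul_assoc]⟩

theorem pc_coe {G : Type} [Group G] (H : Subgroup G) : ∀ (l : List H) (a : H), Pcp l a →
    Pcp (l.map Subtype.val) (a : G)
  | [], a, ha => by
    have : a = 1 := ha
    rw [this]; rfl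
  | x :: l, a, ha => by
    obtain ⟨n, y, hy, rfl⟩ := ha
    exact ⟨n, y, pc_coe H l y hy, by push_cast; rfl⟩

theorem pc_derived {G : Type} [Group G] (n : ℕ) :
    (derivedSeries (commutator G) n).map (commutator G).subtype = derivedSeries G (n + 1) := by
  induction n with
  | zero =>
    rw [derivedSeries_zero, ← MonoidHom.range_eq_map, Subgroup.range_subtype, derivedSeries_one]
  | succ n ih =>
    rw [derivedSeries_succ, Subgroup.map_commutator, ih, ← derivedSeries_succ]

theorem st_PC (hRESC : ST_RESC) : ST_PC := by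
  have key : ∀ n : ℕ, ∀ (G : Type) [Group G], Group.FG G → Engel G → derivedSeries G n = ⊥ →
      ∃ l : List G, ∀ g : G, Pcp l g := by
    intro n
    induction n with
    | zero =>
      intro G _ _ _ h0
      refine ⟨[], fun g => ?_⟩
      rw [derivedSeries_zero] at h0
      have : g ∈ (⊤ : Subgroup G) := Subgroup.mem_top g
      rw [h0] at this
      exact Subgroup.mem_bot.1 this
    | succ n ih =>
      intro G _ hfg hE h0
      obtain ⟨h1, l, h2⟩ := hRESC G hfg hE
      have h3 : derivedSeries (commutator G) n = ⊥ := by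
        rw [← Subgroup.map_eq_bot_iff_of_injective _ (commutator G).subtype_injective,
          pc_derived, h0]
      obtain ⟨l', h4⟩ := ih (commutator G) ((Group.fg_iff_subgroup_fg _).2 h1) (pc_engel hE _) h3
      refine ⟨l ++ l'.map Subtype.val, fun g => ?_⟩
      obtain ⟨y, hy, h5⟩ := h2 g
      have h6 := pc_append _ _ _ _ h5 (pc_coe _ l' _ (h4 ⟨y, hy⟩⁻¹))
      simpa using h6
  intro G _ hfg hE hs
  obtain ⟨n, hn⟩ := hs.solvable
  exact key n G hfg hE hn

end Pool.Agent.Helper93.GS
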