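import Pool.Agent.Helper93.GS.Stmts

set_option autoImplicit false

namespace Pool.Agent.Helper93.GS

theorem resc_eng_coe {G : Type} [Group G] {H : Subgroup G} (x g : H) (k : ℕ) :
    ((eng x g k : H) : G) = eng (x : G) (g : G) k := by
  induction k with
  | zero => rfl
  | succ k ih =>
    simp only [eng, Subgroup.coe_mul, Subgroup.coe_inv, ih]

theorem resc_engel {G : Type} [Group G] (hG : Engel G) (H : Subgroup G) : Engel H := by
  intro x g
  obtain ⟨k, hk⟩ := hG x g
  exact ⟨k, Subtype.ext (by rw [resc_eng_coe, hk]; rfl)⟩

/-- the commutator subgroup with the elements of a list -/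
def rescN {G : Type} [Group G] : List G → Subgroup G
  | [] => commutator G
  | x :: l => Subgroup.zpowers x ⊔ rescN l

theorem rescN_comm {G : Type} [Group G] (l : List G) : commutator G ≤ rescN l := by
  induction l with
  | nil => exact le_rfl
  | cons x l ih => exact ih.trans le_sup_right

theorem rescN_normal {G : Type} [Group G] (l : List G) : (rescN l).Normal :=
  Subgroup.Normal.of_commutator_le _ (rescN_comm l)

theorem rescN_mem {G : Type} [Group G] (l : List G) : ∀ x ∈ l, x ∈ rescN l := by
  induction l with
  | nil => intro x hx; simp at hx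
  | cons y l ih =>
    intro x hx
    rcases List.mem_cons.1 hx with rfl | hx
    · exact (le_sup_left : _ ≤ Subgroup.zpowers x ⊔ rescN l) (Subgroup.mem_zpowers x)
    · exact (le_sup_right : _ ≤ Subgroup.zpowers y ⊔ rescN l) (ih x hx)

theorem rescN_cons {G : Type} [Group G] (x : G) (l : List G) {g : G} (hg : g ∈ rescN (x :: l)) :
    ∃ b : ℤ, ∃ h ∈ rescN l, g = x ^ b * h := by
  have := rescN_normal l
  obtain ⟨a, ha, h, hh, rfl⟩ := Subgroup.mem_sup_of_normal_right.1 hg
  obtain ⟨b, rfl⟩ := Subgroup.mem_zpowers_iff.1 ha
  exact ⟨b, h, hh, rfl⟩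

theorem st_RESC (hRES : ST_RES) : ST_RESC := by
  intro G _ hfg hE
  obtain ⟨S, hS, hSf⟩ := Group.fg_iff.1 hfg
  have hXl : rescN hSf.toFinset.toList = (⊤ : Subgroup G) := by
    rw [eq_top_iff, ← hS, Subgroup.closure_le]
    intro x hx
    exact rescN_mem _ x (by simpa using hx)
  refine ⟨?_, hSf.toFinset.toList, ?_⟩
  · have key : ∀ l : List G, (rescN l).FG → (commutator G).FG := by
      intro l
      induction l with
      | nil => exact id
      | cons x l ih =>
        intro hl
        apply ih
        have : Group.FG (rescN (x :: l)) := (Group.fg_iff_subgroup_fg _).2 hl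
        have hle : rescN l ≤ rescN (x :: l) := le_sup_right
        have hx : x ∈ rescN (x :: l) := rescN_mem _ x List.mem_cons_self
        have := rescN_normal l
        have h1 := hRES (rescN (x :: l)) inferInstance (resc_engel hE _)
          ((rescN l).subgroupOf (rescN (x :: l))) inferInstance ⟨x, hx⟩ (by
            rintro ⟨g, hg⟩
            obtain ⟨b, h, hh, e⟩ := rescN_cons x l hg
            refine ⟨-b, ?_⟩
            rw [Subgroup.mem_subgroupOf]
            push_cast
            rw [e, zpow_neg, inv_mul_cancel_left]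
            exact hh)
        have h2 : Group.FG ((rescN l).subgroupOf (rescN (x :: l))) :=
          (Group.fg_iff_subgroup_fg _).2 h1
        refine (Group.fg_iff_subgroup_fg _).1 ?_
        exact Group.fg_of_surjective (f := (Subgroup.subgroupOfEquivOfLe hle).toMonoidHom)
          (Subgroup.subgroupOfEquivOfLe hle).surjective
    apply key _ (hXl ▸ Group.fg_def.1 hfg)
  · have key : ∀ l : List G, ∀ g ∈ rescN l, ∃ y ∈ commutator G, Pcp l (g * y) := by
      intro l
      induction l with
      | nil =>
        intro g hg
        exact ⟨g⁻¹, Subgroup.inv_mem _ hg, mul_inv_cancel g⟩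
      | cons x l ih =>
        intro g hg
        obtain ⟨b, h, hh, rfl⟩ := rescN_cons x l hg
        obtain ⟨y, hy, h1⟩ := ih h hh
        exact ⟨y, hy, b, h * y, h1, by rw [mul_assoc]⟩
    intro g
    exact key _ g (hXl ▸ Subgroup.mem_top g)

end Pool.Agent.Helper93.GS
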